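import Pool.Agent.H87.AN.TargetsC
import Pool.Agent.H80.AN.TargetsA

/-! Row AB2 of the board allh: integration of the right side of the recursion. -/

set_option autoImplicit false

namespace Pool.Agent.H44.AN

open MeasureTheory Metric Set Filter Topology Pool.Agent.H87.SN Pool.Agent.H87.SH
open Pool.Agent.H87.AX Pool.Agent.H22.AN
open scoped ENNReal

theorem th_meas {d m : ℕ} (hMUF : T_MUF) {G : V d → V d →L[ℝ] E m}
    (hG : MemLp G 2 (volume.restrict (ball (0 : V d) 2))) (r : ℝ) :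
    Measurable (fun x => th G x r) := by
  have h := (hMUF d m G hG).2.2.2.2.2 r
  exact (h.div_const _).measurable

theorem core_meas {d m : ℕ} (hTOG : T_TOG) {G : V d → V d →L[ℝ] E m}
    (hthm : ∀ r, Measurable (fun x => th G x r))
    (hbm : ∀ t, 0 < t → Measurable (fun x => bs G x t)) {e ρ t : ℝ} (ht : 0 < t)
    {w : V d → ℝ≥0∞} (hw : Measurable w) :
    Measurable (fun x : V d =>
      ∫⁻ y in {y : V d | y ∈ ball x ρ ∧ e ≤ th G y t}, w y * bs G y t) := by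
  have h := (hTOG d ∅ {y : V d | e ≤ th G y t} ρ (fun y => w y * bs G y t) MeasurableSet.empty
    (measurableSet_le measurable_const (hthm t)) (hw.mul (hbm t ht))).1
  have h2 : ∀ x : V d, {y : V d | y ∈ ball x ρ ∧ e ≤ th G y t} =
      {y : V d | e ≤ th G y t} ∩ ball x ρ := fun x => inter_comm _ _
  simp only [h2]
  exact h

theorem core {d m : ℕ} (hTOG : T_TOG) {G : V d → V d →L[ℝ] E m}
    (hthm : ∀ r, Measurable (fun x => th G x r))
    (hbm : ∀ t, 0 < t → Measurable (fun x => bs G x t)) {A : Set (V d)} (hA : MeasurableSet A)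
    (hA1 : A ⊆ ball 0 (25 / 16)) {e ρ t : ℝ} (hρ : ρ ≤ 3 / 16) (ht : 0 < t)
    {w : V d → ℝ≥0∞} (hw : Measurable w) {M : ℝ≥0∞}
    (hM : ∀ y, y ∈ ball (0 : V d) (7 / 4) → volume (A ∩ ball y ρ) ≤ M) :
    ∫⁻ x in A, (∫⁻ y in {y : V d | y ∈ ball x ρ ∧ e ≤ th G y t}, w y * bs G y t) ≤
      M * ∫⁻ y in {x : V d | x ∈ ball 0 (7 / 4) ∧ e ≤ th G x t}, w y * bs G y t := by
  have hS : MeasurableSet {x : V d | x ∈ ball 0 (7 / 4) ∧ e ≤ th G x t} :=
    measurableSet_ball.inter (measurableSet_le measurable_const (hthm t))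
  have hf : Measurable (fun y => w y * bs G y t) := hw.mul (hbm t ht)
  have h1 : ∫⁻ x in A, (∫⁻ y in {y : V d | y ∈ ball x ρ ∧ e ≤ th G y t}, w y * bs G y t) =
      ∫⁻ x in A, (∫⁻ y in {x : V d | x ∈ ball 0 (7 / 4) ∧ e ≤ th G x t} ∩ ball x ρ,
        w y * bs G y t) := by
    refine setLIntegral_congr_fun hA fun x hx => ?_
    have h2 : {y : V d | y ∈ ball x ρ ∧ e ≤ th G y t} =
        {x : V d | x ∈ ball 0 (7 / 4) ∧ e ≤ th G x t} ∩ ball x ρ := by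
      ext y
      constructor
      · rintro ⟨h3, h4⟩
        refine ⟨⟨?_, h4⟩, h3⟩
        have h5 := hA1 hx
        rw [mem_ball_zero_iff] at h5 ⊢
        rw [mem_ball, dist_eq_norm] at h3
        have := norm_le_norm_add_norm_sub' y x
        linarith
      · rintro ⟨⟨_, h4⟩, h3⟩
        exact ⟨h3, h4⟩
    simp only [h2]
  rw [h1, (hTOG d A _ ρ _ hA hS hf).2, ← lintegral_const_mul _ hf]
  exact setLIntegral_mono' hS fun y hy => mul_le_mul_left (hM y hy.1) _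

theorem pf_AB2 (hTOG : T_TOG) (hMUF : T_MUF) (hVOL : T_VOL) (hBTM : T_BTM) : T_AB2 := by
  intro d Λ e e₁ hd he he₁
  obtain ⟨om, hom⟩ : ∃ om : ℝ, om = (volume (ball (0 : V d) 1)).toReal := ⟨_, rfl⟩
  have hom0 : 0 ≤ om := by rw [hom]; exact ENNReal.toReal_nonneg
  refine ⟨om + 2 ^ (d + 2) * |Λ| / e₁, by positivity, ?_⟩
  intro m G hG b r j η w hr hj hη hw
  have hΛ : 0 ≤ Λ := by
    have h1 := hG.den 0 2 (by norm_num) le_rfl
    have h2 : 0 ≤ (mu G).real (ball (0 : V d) 2) := measureReal_nonneg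
    have h3 : (0 : ℝ) < 2 ^ d := by positivity
    by_contra h
    push Not at h
    nlinarith
  rw [abs_of_nonneg hΛ]
  have hthm : ∀ r, Measurable (fun x => th G x r) := th_meas hMUF hG.memG
  have hbm : ∀ t, 0 < t → Measurable (fun x => bs G x t) := fun t ht => (hBTM d m G hG.memG t ht).2
  have hsj : ∀ i, 0 < sj i := fun i => by unfold sj; positivity
  have hsj4 : sj j ≤ 1 / 16 := by
    unfold sj
    calc (1 / 2 : ℝ) ^ j ≤ (1 / 2) ^ 4 := pow_le_pow_of_le_one (by norm_num) (by norm_num) hj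
      _ = 1 / 16 := by norm_num
  have hsr : sj r ≤ 1 / 256 := by
    unfold sj
    calc (1 / 2 : ℝ) ^ r ≤ (1 / 2) ^ 8 := pow_le_pow_of_le_one (by norm_num) (by norm_num) hr
      _ = 1 / 256 := by norm_num
  have hjr : sj (j + r) = sj j * sj r := by unfold sj; rw [pow_add]
  have hj3 : sj (j + 3) = sj j / 8 := by
    unfold sj
    rw [pow_add]
    norm_num
    ring
  have hjr16 : sj (j + r) ≤ 1 / 16 := by
    rw [hjr]
    nlinarith [hsj j, hsj r]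
  obtain ⟨A, hAd⟩ : ∃ A : Set (V d), A = {x : V d | x ∈ ball 0 (25 / 16) ∧
      e₁ ≤ th G x (sj (j + r))} := ⟨_, rfl⟩
  have hA : MeasurableSet A := by
    rw [hAd]
    exact measurableSet_ball.inter (measurableSet_le measurable_const (hthm _))
  have hA1 : A ⊆ ball 0 (25 / 16) := by
    rw [hAd]
    exact fun x hx => hx.1
  obtain ⟨F1, hF1⟩ : ∃ F1 : V d → ℝ≥0∞, F1 = fun x => ∫⁻ y in {y : V d | y ∈ ball x (sj (j + r)) ∧
      e ≤ th G y (sj (j + b + r))}, w y * bs G y (sj (j + b + r)) := ⟨_, rfl⟩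
  obtain ⟨F2, hF2⟩ : ∃ F2 : V d → ℝ≥0∞, F2 = fun x => ∫⁻ y in {y : V d | y ∈ ball x (sj (j + r)) ∧
      e ≤ th G y (sj (j + r))}, w y * bs G y (sj (j + r)) := ⟨_, rfl⟩
  obtain ⟨F3, hF3⟩ : ∃ F3 : V d → ℝ≥0∞, F3 = fun x => ∫⁻ y in {y : V d | y ∈ ball x (sj j / 16) ∧
      e ≤ th G y (sj (j + 3))}, w y * bs G y (sj (j + 3)) := ⟨_, rfl⟩
  have m1 : Measurable F1 := by rw [hF1]; exact core_meas hTOG hthm hbm (hsj _) hw
  have m2 : Measurable F2 := by rw [hF2]; exact core_meas hTOG hthm hbm (hsj _) hw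
  have m3 : Measurable F3 := by rw [hF3]; exact core_meas hTOG hthm hbm (hsj _) hw
  obtain ⟨c1, hc1⟩ : ∃ c : ℝ≥0∞, c = ENNReal.ofReal ((sj (j + b + r) ^ 2)⁻¹) := ⟨_, rfl⟩
  obtain ⟨c2, hc2⟩ : ∃ c : ℝ≥0∞, c = ENNReal.ofReal ((sj (j + r) ^ 2)⁻¹) := ⟨_, rfl⟩
  obtain ⟨c3, hc3⟩ : ∃ c : ℝ≥0∞, c = ENNReal.ofReal (sj r ^ d * (sj j ^ 2)⁻¹) := ⟨_, rfl⟩
  have hRw : ∀ x, Rw G e η b r w x j =
      ENNReal.ofReal η * (c1 * F1 x + c2 * F2 x + c3 * F3 x) := by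
    intro x
    rw [hc1, hc2, hc3, hF1, hF2, hF3]
    rfl
  have m4 : Measurable (fun x => c1 * F1 x) := m1.const_mul _
  have m5 : Measurable (fun x => c2 * F2 x) := m2.const_mul _
  have m6 : Measurable (fun x => c3 * F3 x) := m3.const_mul _
  have m7 : Measurable (fun x => c1 * F1 x + c2 * F2 x) := m4.add m5
  have m8 : Measurable (fun x => c1 * F1 x + c2 * F2 x + c3 * F3 x) := m7.add m6
  constructor
  · simp only [hRw]
    exact m8.const_mul _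
  have hint : ∫⁻ x in A, Rw G e η b r w x j = ENNReal.ofReal η * (c1 * (∫⁻ x in A, F1 x) +
      c2 * (∫⁻ x in A, F2 x) + c3 * (∫⁻ x in A, F3 x)) := by
    simp only [hRw]
    rw [lintegral_const_mul _ m8, lintegral_add_left m7, lintegral_add_left m4,
      lintegral_const_mul _ m1, lintegral_const_mul _ m2, lintegral_const_mul _ m3]
  -- the three terms
  obtain ⟨L1, hL1⟩ : ∃ L : ℝ≥0∞, L = ∫⁻ y in {x : V d | x ∈ ball 0 (7 / 4) ∧
      e ≤ th G x (sj (j + b + r))}, w y * bs G y (sj (j + b + r)) := ⟨_, rfl⟩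
  obtain ⟨L2, hL2⟩ : ∃ L : ℝ≥0∞, L = ∫⁻ y in {x : V d | x ∈ ball 0 (7 / 4) ∧
      e ≤ th G x (sj (j + r))}, w y * bs G y (sj (j + r)) := ⟨_, rfl⟩
  obtain ⟨L3, hL3⟩ : ∃ L : ℝ≥0∞, L = ∫⁻ y in {x : V d | x ∈ ball 0 (7 / 4) ∧
      e ≤ th G x (sj (j + 3))}, w y * bs G y (sj (j + 3)) := ⟨_, rfl⟩
  have hvb : ∀ y ∈ ball (0 : V d) (7 / 4), volume (A ∩ ball y (sj (j + r))) ≤
      ENNReal.ofReal (sj (j + r) ^ (d + 2) * om) := by
    intro y _
    refine (measure_mono inter_subset_right).trans ?_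
    rw [Measure.addHaar_ball volume y (hsj _).le,
      ENNReal.ofReal_mul (by have := hsj (j + r); positivity), hom, ENNReal.ofReal_toReal measure_ball_lt_top.ne]
    rw [show Module.finrank ℝ (V d) = d + 2 from finrank_euclideanSpace_fin]
  have hv3 : ∀ y ∈ ball (0 : V d) (7 / 4), volume (A ∩ ball y (sj j / 16)) ≤
      ENNReal.ofReal (2 ^ (d + 2) * (Λ * (sj j / 8) ^ d) / e₁ * sj (j + r) ^ 2) := by
    intro y hy
    have h1 : A ∩ ball y (sj j / 16) ⊆ {x | x ∈ ball y (sj j / 16) ∧ e₁ ≤ th G x (sj (j + r))} := by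
      rintro x ⟨hx1, hx2⟩
      rw [hAd] at hx1
      exact ⟨hx2, hx1.2⟩
    refine (measure_mono h1).trans (hVOL d m G hG.memG e₁ _ y (sj j / 16) (sj (j + r)) he₁ (hsj _)
      (by have := hsj j; positivity) ?_)
    have h2 : sj j / 16 + sj (j + r) ≤ sj j / 8 := by
      rw [hjr]
      nlinarith [hsj j, hsj r]
    have : IsFiniteMeasure (mu G) := ⟨lt_top_iff_ne_top.2 (hMUF d m G hG.memG).1⟩
    refine (measureReal_mono (ball_subset_ball h2)).trans (hG.den y (sj j / 8) (by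
      have := hsj j; positivity) ?_)
    intro z hz
    rw [mem_ball_zero_iff] at hy ⊢
    rw [mem_ball, dist_eq_norm] at hz
    have := norm_le_norm_add_norm_sub' z y
    linarith
  have b1 : ∫⁻ x in A, F1 x ≤ ENNReal.ofReal (sj (j + r) ^ (d + 2) * om) * L1 := by
    rw [hF1, hL1]
    exact core hTOG hthm hbm hA hA1 (by linarith) (hsj _) hw hvb
  have b2 : ∫⁻ x in A, F2 x ≤ ENNReal.ofReal (sj (j + r) ^ (d + 2) * om) * L2 := by
    rw [hF2, hL2]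
    exact core hTOG hthm hbm hA hA1 (by linarith) (hsj _) hw hvb
  have b3 : ∫⁻ x in A, F3 x ≤
      ENNReal.ofReal (2 ^ (d + 2) * (Λ * (sj j / 8) ^ d) / e₁ * sj (j + r) ^ 2) * L3 := by
    rw [hF3, hL3]
    exact core hTOG hthm hbm hA hA1 (by have := hsj j; linarith) (hsj _) hw hv3
  obtain ⟨C, hC⟩ : ∃ C : ℝ, C = om + 2 ^ (d + 2) * Λ / e₁ := ⟨_, rfl⟩
  obtain ⟨Q, hQ⟩ : ∃ Q : ℝ, Q = (sj (j + r) ^ (d + 2))⁻¹ := ⟨_, rfl⟩
  have hQ0 : 0 ≤ Q := by
    rw [hQ]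
    have := hsj (j + r)
    positivity
  have q1 : Q * (sj (j + r) ^ (d + 2) * om) ≤ C := by
    have h1 : Q * (sj (j + r) ^ (d + 2) * om) = om := by
      rw [hQ, ← mul_assoc, inv_mul_cancel₀ (by have := hsj (j + r); positivity), one_mul]
    rw [h1, hC]
    have : 0 ≤ 2 ^ (d + 2) * Λ / e₁ := by positivity
    linarith
  have q3 : Q * ((sj r ^ d * (sj j ^ 2)⁻¹) *
      (2 ^ (d + 2) * (Λ * (sj j / 8) ^ d) / e₁ * sj (j + r) ^ 2)) ≤ C * (sj (j + 3) ^ 2)⁻¹ := by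
    have hs := hsj j
    have hs' := hsj r
    have h1 : Q * ((sj r ^ d * (sj j ^ 2)⁻¹) *
        (2 ^ (d + 2) * (Λ * (sj j / 8) ^ d) / e₁ * sj (j + r) ^ 2)) =
        (2 ^ (d + 2) * Λ / e₁) * (1 / 8 ^ d) * (sj j ^ 2)⁻¹ := by
      rw [hQ, hjr, mul_pow, div_pow, mul_pow, pow_add, pow_add]
      field_simp
    have h2 : C * (sj (j + 3) ^ 2)⁻¹ = C * (64 * (sj j ^ 2)⁻¹) := by
      rw [hj3]
      congr 1
      field_simp
      norm_num
    rw [h1, h2]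
    have h3 : 0 ≤ 2 ^ (d + 2) * Λ / e₁ := by positivity
    have h4 : 2 ^ (d + 2) * Λ / e₁ ≤ C := by rw [hC]; linarith
    have h5 : (1 : ℝ) / 8 ^ d ≤ 1 := by
      rw [div_le_one (by positivity)]
      exact one_le_pow₀ (by norm_num)
    have h6 : 0 ≤ (sj j ^ 2)⁻¹ := by positivity
    have h7 : (2 ^ (d + 2) * Λ / e₁) * (1 / 8 ^ d) ≤ C * 1 :=
      mul_le_mul h4 h5 (by positivity) (h3.trans h4)
    have h8 : 0 ≤ C := h3.trans h4
    calc (2 ^ (d + 2) * Λ / e₁) * (1 / 8 ^ d) * (sj j ^ 2)⁻¹ ≤ C * 1 * (sj j ^ 2)⁻¹ :=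
          mul_le_mul_of_nonneg_right h7 h6
      _ ≤ C * (64 * (sj j ^ 2)⁻¹) := by nlinarith [mul_nonneg h8 h6]
  have hC0 : 0 ≤ C := by rw [hC]; positivity
  rw [← hAd, hint, ← hQ, ← hC]
  have k1 : Kw G e w (j + b + r) = c1 * L1 := by rw [hc1, hL1]; rfl
  have k2 : Kw G e w (j + r) = c2 * L2 := by rw [hc2, hL2]; rfl
  have k3 : Kw G e w (j + 3) = ENNReal.ofReal ((sj (j + 3) ^ 2)⁻¹) * L3 := by rw [hL3]; rfl
  rw [k1, k2, k3]
  have t1 : ENNReal.ofReal Q * ENNReal.ofReal (sj (j + r) ^ (d + 2) * om) ≤ ENNReal.ofReal C := by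
    rw [← ENNReal.ofReal_mul hQ0]
    exact ENNReal.ofReal_le_ofReal q1
  have t3 : ENNReal.ofReal Q * (c3 *
      ENNReal.ofReal (2 ^ (d + 2) * (Λ * (sj j / 8) ^ d) / e₁ * sj (j + r) ^ 2)) ≤
      ENNReal.ofReal C * ENNReal.ofReal ((sj (j + 3) ^ 2)⁻¹) := by
    rw [hc3, ← ENNReal.ofReal_mul (by have := hsj r; positivity), ← ENNReal.ofReal_mul hQ0,
      ← ENNReal.ofReal_mul hC0]
    exact ENNReal.ofReal_le_ofReal q3
  calc ENNReal.ofReal Q * (ENNReal.ofReal η * (c1 * (∫⁻ x in A, F1 x) +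
      c2 * (∫⁻ x in A, F2 x) + c3 * (∫⁻ x in A, F3 x)))
      ≤ ENNReal.ofReal Q * (ENNReal.ofReal η * (
        c1 * (ENNReal.ofReal (sj (j + r) ^ (d + 2) * om) * L1) +
        c2 * (ENNReal.ofReal (sj (j + r) ^ (d + 2) * om) * L2) +
        c3 * (ENNReal.ofReal (2 ^ (d + 2) * (Λ * (sj j / 8) ^ d) / e₁ * sj (j + r) ^ 2) * L3))) := by
        gcongr
    _ = ENNReal.ofReal η * (
        (ENNReal.ofReal Q * ENNReal.ofReal (sj (j + r) ^ (d + 2) * om)) * (c1 * L1) +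
        (ENNReal.ofReal Q * ENNReal.ofReal (sj (j + r) ^ (d + 2) * om)) * (c2 * L2) +
        (ENNReal.ofReal Q * (c3 *
          ENNReal.ofReal (2 ^ (d + 2) * (Λ * (sj j / 8) ^ d) / e₁ * sj (j + r) ^ 2))) * L3) := by
        ring
    _ ≤ ENNReal.ofReal η * (ENNReal.ofReal C * (c1 * L1) + ENNReal.ofReal C * (c2 * L2) +
        (ENNReal.ofReal C * ENNReal.ofReal ((sj (j + 3) ^ 2)⁻¹)) * L3) := by
        gcongr
    _ = ENNReal.ofReal (C * η) * (c1 * L1 + c2 * L2 +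
        ENNReal.ofReal ((sj (j + 3) ^ 2)⁻¹) * L3) := by
        rw [ENNReal.ofReal_mul hC0]
        ring

end Pool.Agent.H44.AN
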